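import Pool.Agent.Q281.EK.Term

set_option autoImplicit false

/-!
# Divisibility by `Φ_d(q)`
-/

namespace Pool.Agent.Q281.EK

open Polynomial Pool.Agent.Q281.QC

theorem not_dvd_between {d a v : ℕ} (hd4 : Nat.Coprime d 4) (hv : d ∣ 4 * v + a)
    (hvd : v < d) (l t : ℕ) (ht : t < v) : ¬ d ∣ 4 * (l * d + t) + a := by
  intro h
  have h1 := (dvd_iff_mod hd4 hv (l * d + t)).1 h
  have h2 : (l * d + t) % d = v % d := h1
  rw [mul_comm l d, Nat.mul_add_mod, Nat.mod_eq_of_lt (by omega), Nat.mod_eq_of_lt hvd] at h2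
  omega

theorem tk_HH (N k : ℕ) : tk q (q ^ N) 1 k = tk q 1 1 k * HH (N : ℤ) k := by
  rw [tk, tk, pj_HH]
  ring

theorem blockA {d s0 j0 : ℕ} (hd : 1 < d) (hd2 : d % 2 = 1) (hs0 : s0 = 1 ∨ s0 = 3)
    (h0 : 4 * j0 + 1 = s0 * d) (hΘ : ∀ l j, j < d → del d * tk q 1 1 (l * d + j) ∈ Loc (Phi d))
    (hΘ2 : ∀ l j, j < d → j0 < j → Cg d 2 (del d * tk q 1 1 (l * d + j)) 0)
    (hcf : ∀ L, Cg d 2 (del d * cf (L * d + j0) 1) 0) (L : ℕ) :
    Cg d 2 (∑ j ∈ Finset.range (j0 + 1), del d * tk q 1 1 (L * d + j)) 0 := by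
  have hd0 : 0 < d := by omega
  have hd4 : Nat.Coprime d 4 := by
    have : Nat.Coprime d 2 := by
      rw [Nat.coprime_two_right, Nat.odd_iff]
      exact hd2
    have h2 := this.pow_right 2
    norm_num at h2
    exact h2
  have hj0 : j0 < d := by
    rcases hs0 with rfl | rfl <;> omega
  have hv1 : d ∣ 4 * j0 + 1 := by
    rw [h0]
    exact dvd_mul_left _ _
  have hv4 : d ∣ 4 * (d - 1) + 4 := ⟨4, by omega⟩
  induction L using Nat.strong_induction_on with
  | _ L ih =>
    set s : ℤ := 4 * L + s0 with hs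
    have hs0' : (s0 : ℤ) = 1 ∨ (s0 : ℤ) = 3 := by
      rcases hs0 with h | h
      · exact Or.inl (by rw [h]; rfl)
      · exact Or.inr (by rw [h]; rfl)
    have hs2 : s % 2 = 1 := by
      rw [hs]
      rcases hs0' with h | h <;> rw [h] <;> omega
    have hspos : 0 < s := by
      rw [hs]
      rcases hs0' with h | h <;> rw [h] <;> omega
    set M := L * d + j0 with hM
    have hN : (((4 * M + 1 : ℕ) : ℕ) : ℤ) = d * s := by
      have : ((4 * j0 + 1 : ℕ) : ℤ) = ((s0 * d : ℕ) : ℤ) := by rw [h0]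
      push_cast at this ⊢
      rw [hM, hs]
      push_cast
      linarith
    have hsum := jsum (y := 1) one_ne_zero (fun i => by rw [one_mul]; exact qq_ne _)
      (fun i => qq_ne _) M ((L + 1) * d) (by rw [hM, Nat.succ_mul]; omega)
    simp only [tk_HH] at hsum
    rw [hN] at hsum
    have h1 : del d * cf M 1 = ∑ l ∈ Finset.range (L + 1), ∑ j ∈ Finset.range d,
        (del d * tk q 1 1 (l * d + j)) * HH (d * s) (l * d + j) := by
      rw [← hsum, Finset.mul_sum, sum_blocks]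
      refine Finset.sum_congr rfl fun l _ => Finset.sum_congr rfl fun j _ => ?_
      ring
    have h2 : ∀ l, Cg d 2 (∑ j ∈ Finset.range d,
        (del d * tk q 1 1 (l * d + j)) * HH (d * s) (l * d + j))
        ((∑ j ∈ Finset.range (j0 + 1), del d * tk q 1 1 (l * d + j)) * HH (d * s) (l * d)) := by
      intro l
      have e1 : d = (j0 + 1) + (d - (j0 + 1)) := by omega
      have e2 : ∑ j ∈ Finset.range d, (del d * tk q 1 1 (l * d + j)) * HH (d * s) (l * d + j) =
          ∑ j ∈ Finset.range (j0 + 1), (del d * tk q 1 1 (l * d + j)) * HH (d * s) (l * d + j) +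
          ∑ j ∈ Finset.range (d - (j0 + 1)), (del d * tk q 1 1 (l * d + (j0 + 1 + j))) *
            HH (d * s) (l * d + (j0 + 1 + j)) := by
        conv_lhs => rw [e1]
        rw [Finset.sum_range_add]
        congr 1
        · rw [← e1]
        · rw [← e1]
      rw [e2, Finset.sum_mul]
      have c1 : Cg d 2 (∑ j ∈ Finset.range (j0 + 1),
          (del d * tk q 1 1 (l * d + j)) * HH (d * s) (l * d + j))
          (∑ j ∈ Finset.range (j0 + 1), (del d * tk q 1 1 (l * d + j)) * HH (d * s) (l * d)) := by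
        refine Cg.sum fun j hj => ?_
        rw [Finset.mem_range] at hj
        refine (HH_cg hd0 hd2 hs2 l j fun t ht => ⟨?_, ?_⟩).mul_left (hΘ l j (by omega))
        · exact not_dvd_between hd4 hv1 hj0 l t (by omega)
        · exact not_dvd_between hd4 hv4 (by omega) l t (by omega)
      have c2 : Cg d 2 (∑ j ∈ Finset.range (d - (j0 + 1)),
          (del d * tk q 1 1 (l * d + (j0 + 1 + j))) * HH (d * s) (l * d + (j0 + 1 + j)))
          (∑ j ∈ Finset.range (d - (j0 + 1)), 0) := by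
        refine Cg.sum fun j hj => ?_
        rw [Finset.mem_range] at hj
        have := (hΘ2 l (j0 + 1 + j) (by omega) (by omega)).mul_right
          (HH_mem hd0 hd2 hs2 (l * d + (j0 + 1 + j)))
        rwa [zero_mul] at this
      rw [Finset.sum_const_zero] at c2
      have := c1.add c2
      rwa [add_zero] at this
    have h3 : Cg d 2 (∑ l ∈ Finset.range (L + 1),
        (∑ j ∈ Finset.range (j0 + 1), del d * tk q 1 1 (l * d + j)) * HH (d * s) (l * d)) 0 := by
      have a1 := Cg.sum (n := d) (r := 2) (s := Finset.range (L + 1)) (fun l _ => h2 l)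
      rw [← h1] at a1
      exact a1.symm.trans (hcf L)
    rw [Finset.sum_range_succ] at h3
    have h4 : Cg d 2 (∑ l ∈ Finset.range L,
        (∑ j ∈ Finset.range (j0 + 1), del d * tk q 1 1 (l * d + j)) * HH (d * s) (l * d))
        (∑ l ∈ Finset.range L, 0) := by
      refine Cg.sum fun l hl => ?_
      have := (ih l (Finset.mem_range.1 hl)).mul_right (HH_mem hd0 hd2 hs2 (l * d))
      rwa [zero_mul] at this
    rw [Finset.sum_const_zero] at h4
    have h5 : Cg d 2 ((∑ j ∈ Finset.range (j0 + 1), del d * tk q 1 1 (L * d + j)) *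
        HH (d * s) (L * d)) 0 := by
      obtain ⟨z, hz, e⟩ := h3
      obtain ⟨z', hz', e'⟩ := h4
      exact ⟨z - z', sub_mem hz hz', by linear_combination e - e'⟩
    obtain ⟨hi, hne⟩ := HH_inv hd0 hd2 hs2 hspos (L * d) (fun i hi h => by
      rw [← hN] at h
      have : (4 * i + 1 : ℕ) = 4 * M + 1 := by exact_mod_cast h
      omega)
    have h6 := h5.mul_right hi
    rw [zero_mul, mul_assoc, mul_inv_cancel₀ hne, mul_one] at h6
    exact h6

theorem goalA {n d : ℕ} (hd : 1 < d) (hdn : d ∣ n) (hn : n % 2 = 1) :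
    ∃ z ∈ Loc (Phi d), ∑ k ∈ Finset.range n, tk q 1 1 k = del d * z := by
  have hd0 : 0 < d := by omega
  obtain ⟨m, hm⟩ := hdn
  have hd2 : d % 2 = 1 := by
    rcases Nat.mod_two_eq_zero_or_one d with h | h
    · exfalso
      rw [hm, Nat.mul_mod, h] at hn
      simp at hn
    · exact h
  have hd4 : Nat.Coprime d 4 := by
    have : Nat.Coprime d 2 := by
      rw [Nat.coprime_two_right, Nat.odd_iff]
      exact hd2
    have h2 := this.pow_right 2
    norm_num at h2
    exact h2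
  obtain ⟨s0, j0, hs0, h0⟩ : ∃ s0 j0, (s0 = 1 ∨ s0 = 3) ∧ 4 * j0 + 1 = s0 * d := by
    have h4 : d % 4 = 1 ∨ d % 4 = 3 := by omega
    rcases h4 with h4 | h4
    · exact ⟨1, (d - 1) / 4, Or.inl rfl, by omega⟩
    · exact ⟨3, (3 * d - 1) / 4, Or.inr rfl, by omega⟩
  obtain ⟨v3, s3, h3, hv3d⟩ : ∃ v3 s3, 4 * v3 + 3 = s3 * d ∧ v3 < d := by
    have h4 : d % 4 = 1 ∨ d % 4 = 3 := by omega
    rcases h4 with h4 | h4
    · exact ⟨(3 * d - 3) / 4, 3, by omega, by omega⟩
    · exact ⟨(d - 3) / 4, 1, by omega, by omega⟩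
  have hj0 : j0 < d := by
    rcases hs0 with rfl | rfl <;> omega
  have hv1 : d ∣ 4 * j0 + 1 := by
    rw [h0]
    exact dvd_mul_left _ _
  have hv2 : d ∣ 4 * ((d - 1) / 2) + 2 := ⟨2, by omega⟩
  have hv3 : d ∣ 4 * v3 + 3 := by
    rw [h3]
    exact dvd_mul_left _ _
  have hv4 : d ∣ 4 * (d - 1) + 4 := ⟨4, by omega⟩
  have c1 := fun l j hj => cnt_eq hd0 hd4 hv1 hj0 l j hj
  have c2 := fun l j hj => cnt_eq hd0 hd4 hv2 (by omega) l j hj
  have c3 := fun l j hj => cnt_eq hd0 hd4 hv3 hv3d l j hj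
  have c4 := fun l j hj => cnt_eq hd0 hd4 hv4 (by omega) l j hj
  have hΘ : ∀ l j, j < d → del d * tk q 1 1 (l * d + j) ∈ Loc (Phi d) := by
    intro l j hj
    obtain ⟨z, hz, e⟩ := T0_val hd0 (l * d + j) 0 (by
      rw [c1 l j hj, c2 l j hj, c3 l j hj, c4 l j hj]
      split_ifs <;> omega)
    rw [e, pow_zero, one_mul]
    exact hz
  have hΘ2 : ∀ l j, j < d → j0 < j → Cg d 2 (del d * tk q 1 1 (l * d + j)) 0 := by
    intro l j hj hj'
    obtain ⟨z, hz, e⟩ := T0_val hd0 (l * d + j) 2 (by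
      rw [c1 l j hj, c2 l j hj, c3 l j hj, c4 l j hj]
      split_ifs <;> omega)
    exact ⟨z, hz, by rw [e, sub_zero]⟩
  have hcf : ∀ L, Cg d 2 (del d * cf (L * d + j0) 1) 0 := by
    intro L
    obtain ⟨z, hz, e⟩ := cf_one_val hd0 (M := L * d + j0) (r := 1) (by
      have e1 : 4 * (L * d + j0) + 1 = (4 * L + s0) * d := by
        rw [Nat.add_mul, ← h0]
        ring
      rw [e1]
      exact dvd_mul_left _ _) (by
      rw [c2 L j0 hj0, c4 L j0 hj0]
      split_ifs <;> omega)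
    exact ⟨z, hz, by rw [e]; ring⟩
  have key := blockA hd hd2 hs0 h0 hΘ hΘ2 hcf
  have h1 : Cg d 2 (∑ l ∈ Finset.range m, ∑ j ∈ Finset.range d,
      del d * tk q 1 1 (l * d + j)) (∑ l ∈ Finset.range m, 0) := by
    refine Cg.sum fun l _ => ?_
    have e1 : d = (j0 + 1) + (d - (j0 + 1)) := by omega
    have e2 : ∑ j ∈ Finset.range d, del d * tk q 1 1 (l * d + j) =
        ∑ j ∈ Finset.range (j0 + 1), del d * tk q 1 1 (l * d + j) +
        ∑ j ∈ Finset.range (d - (j0 + 1)), del d * tk q 1 1 (l * d + (j0 + 1 + j)) := by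
      conv_lhs => rw [e1]
      rw [Finset.sum_range_add]
      congr 1
      · rw [← e1]
      · rw [← e1]
    rw [e2]
    have c2 : Cg d 2 (∑ j ∈ Finset.range (d - (j0 + 1)),
        del d * tk q 1 1 (l * d + (j0 + 1 + j))) (∑ j ∈ Finset.range (d - (j0 + 1)), 0) := by
      refine Cg.sum fun j hj => ?_
      rw [Finset.mem_range] at hj
      exact hΘ2 l (j0 + 1 + j) (by omega) (by omega)
    rw [Finset.sum_const_zero] at c2
    have := (key l).add c2
    rwa [add_zero] at this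
  rw [Finset.sum_const_zero, ← sum_blocks (fun k => del d * tk q 1 1 k) d m, mul_comm m d, ← hm,
    ← Finset.mul_sum] at h1
  obtain ⟨z, hz, e⟩ := h1
  refine ⟨z, hz, ?_⟩
  have hδ := del_ne hd0
  apply mul_left_cancel₀ hδ
  rw [sub_zero] at e
  rw [e]
  ring

end Pool.Agent.Q281.EK
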