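import Pool.Agent.Q281.EK.GoalA

set_option autoImplicit false

/-!
# Divisibility by `Φ_n(q)^3` for `n ≡ 3 (mod 4)`
-/

namespace Pool.Agent.Q281.EK

open Polynomial Pool.Agent.Q281.QC

theorem num_nat (N e : ℕ) : (1 - q ^ N * q ^ e) * (1 - (q ^ N)⁻¹ * q ^ e) =
    (1 - q ^ ((e : ℤ) + N)) * (1 - q ^ ((e : ℤ) - N)) := by
  rw [sub_eq_add_neg (e : ℤ), zpow_add₀ q_ne, zpow_add₀ q_ne, zpow_neg, zpow_natCast,
    zpow_natCast, mul_comm (q ^ e) (q ^ N), mul_comm (q ^ e) (q ^ N)⁻¹]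

theorem num_mem {n : ℕ} (hn : 0 < n) (N e : ℕ) :
    (1 - q ^ N * q ^ e) * (1 - (q ^ N)⁻¹ * q ^ e) ∈ Loc (Phi n) := by
  rw [num_nat]
  exact mul_mem (sub_mem (one_mem _) (qz_mem hn _)) (sub_mem (one_mem _) (qz_mem hn _))

theorem num_cg {n : ℕ} (hn : 0 < n) (s e : ℕ) :
    Cg n 2 ((1 - q ^ (n * s) * q ^ e) * (1 - (q ^ (n * s))⁻¹ * q ^ e))
      ((1 - 1 * q ^ e) * (1 - 1⁻¹ * q ^ e)) := by
  have hN : q ^ (n * s) = 1 + del n * br n (s : ℤ) := by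
    have h := br_eq hn (s : ℤ)
    rw [← Nat.cast_mul, zpow_natCast] at h
    linear_combination -h
  have h0 : q ^ (n * s) ≠ 0 := pow_ne_zero _ q_ne
  refine ⟨-(q ^ e * (q ^ (n * s))⁻¹ * br n s ^ 2), neg_mem (mul_mem (mul_mem
    (pow_mem (q_mem n) _) ?_) (pow_mem (br_mem hn _) 2)), ?_⟩
  · have := qz_mem hn (-((n * s : ℕ) : ℤ))
    rwa [zpow_neg, zpow_natCast] at this
  · have hi : (q ^ (n * s))⁻¹ * q ^ (n * s) = 1 := inv_mul_cancel₀ h0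
    have hd : del n * br n (s : ℤ) = q ^ (n * s) - 1 := by rw [hN]; ring
    have e1 : del n ^ 2 * -(q ^ e * (q ^ (n * s))⁻¹ * br n s ^ 2) =
        -(q ^ e * (q ^ (n * s))⁻¹ * (del n * br n (s : ℤ)) ^ 2) := by ring
    rw [e1, hd, inv_one]
    linear_combination (q ^ e * (q ^ e + q ^ (n * s) - 2)) * hi

theorem den_unit {n : ℕ} (hn : 0 < n) (s e : ℕ) (he : ¬ n ∣ e) :
    ((1 - q ^ (n * s) * q ^ e) * (1 - (q ^ (n * s))⁻¹ * q ^ e))⁻¹ ∈ Loc (Phi n) ∧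
      (1 - q ^ (n * s) * q ^ e) * (1 - (q ^ (n * s))⁻¹ * q ^ e) ≠ 0 := by
  have he' : ¬ (n : ℤ) ∣ (e : ℤ) := fun h => he (Int.natCast_dvd_natCast.1 h)
  have hp : ¬ (n : ℤ) ∣ (e : ℤ) + ((n * s : ℕ) : ℤ) := by
    rw [Nat.cast_mul]
    rwa [dvd_add_left (dvd_mul_right _ _)]
  have hm : ¬ (n : ℤ) ∣ (e : ℤ) - ((n * s : ℕ) : ℤ) := by
    rw [Nat.cast_mul]
    rwa [dvd_sub_left (dvd_mul_right _ _)]
  rw [num_nat]
  constructor
  · rw [mul_inv]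
    exact mul_mem (one_sub_z_inv_mem hn hp) (one_sub_z_inv_mem hn hm)
  · exact mul_ne_zero (one_sub_ne_of_nd hp) (one_sub_ne_of_nd hm)

theorem pj_cg {n : ℕ} (hn2 : n % 2 = 1) (s k : ℕ) (hk : k < n) :
    Cg n 2 (pj q (q ^ (n * s)) k) (pj q 1 k) := by
  have hn : 0 < n := by omega
  have hn4 : Nat.Coprime n 4 := by
    have : Nat.Coprime n 2 := by
      rw [Nat.coprime_two_right, Nat.odd_iff]
      exact hn2
    have h2 := this.pow_right 2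
    norm_num at h2
    exact h2
  have hv4 : n ∣ 4 * (n - 1) + 4 := ⟨4, by omega⟩
  rw [pj, pj]
  have hnd : ∀ i ∈ Finset.range k, ¬ n ∣ 4 * i + 4 := by
    intro i hi
    rw [Finset.mem_range] at hi
    have := not_dvd_between hn4 hv4 (by omega) 0 i (by omega)
    rwa [zero_mul, zero_add] at this
  have key : ∀ i ∈ Finset.range k,
      ((1 - q ^ (n * s) * q ^ (4 * i + 1)) * (1 - (q ^ (n * s))⁻¹ * q ^ (4 * i + 1)) /
      ((1 - q ^ (n * s) * q ^ (4 * i + 4)) * (1 - (q ^ (n * s))⁻¹ * q ^ (4 * i + 4)))) ∈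
        Loc (Phi n) ∧
      ((1 - 1 * q ^ (4 * i + 1)) * (1 - 1⁻¹ * q ^ (4 * i + 1)) /
      ((1 - 1 * q ^ (4 * i + 4)) * (1 - 1⁻¹ * q ^ (4 * i + 4)))) ∈ Loc (Phi n) ∧
      Cg n 2 ((1 - q ^ (n * s) * q ^ (4 * i + 1)) * (1 - (q ^ (n * s))⁻¹ * q ^ (4 * i + 1)) /
      ((1 - q ^ (n * s) * q ^ (4 * i + 4)) * (1 - (q ^ (n * s))⁻¹ * q ^ (4 * i + 4))))
      ((1 - 1 * q ^ (4 * i + 1)) * (1 - 1⁻¹ * q ^ (4 * i + 1)) /
      ((1 - 1 * q ^ (4 * i + 4)) * (1 - 1⁻¹ * q ^ (4 * i + 4)))) := by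
    intro i hi
    have h4 := hnd i hi
    have a1 := num_mem hn (n * s) (4 * i + 1)
    have a2 := num_mem hn (n * 0) (4 * i + 1)
    obtain ⟨b1, b1'⟩ := den_unit hn s (4 * i + 4) h4
    obtain ⟨b2, b2'⟩ := den_unit hn 0 (4 * i + 4) h4
    rw [mul_zero, pow_zero] at a2 b2 b2'
    have c1 := num_cg hn s (4 * i + 1)
    have c2 := Cg.inv b1 b2 b1' b2' (num_cg hn s (4 * i + 4))
    rw [div_eq_mul_inv, div_eq_mul_inv]
    exact ⟨mul_mem a1 b1, mul_mem a2 b2, Cg.mul b1 a2 c1 c2⟩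
  exact Cg.prod (fun i hi => (key i hi).1) (fun i hi => (key i hi).2.1)
    (fun i hi => (key i hi).2.2)

theorem cf_val {n M : ℕ} (hn3 : n % 4 = 3) (hM : 4 * M + 1 = 3 * n) :
    ∃ z ∈ Loc (Phi n), cf M (q ^ (n * 3)) = del n ^ 3 * z := by
  have hn : 0 < n := by omega
  have hn4 : Nat.Coprime n 4 := by
    have : Nat.Coprime n 2 := by
      rw [Nat.coprime_two_right, Nat.odd_iff]
      omega
    have h2 := this.pow_right 2
    norm_num at h2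
    exact h2
  have hv4 : n ∣ 4 * (n - 1) + 4 := ⟨4, by omega⟩
  have hnd : ∀ i ∈ Finset.range M, ¬ n ∣ 4 * i + 4 := by
    intro i hi
    rw [Finset.mem_range] at hi
    have := not_dvd_between hn4 hv4 (by omega) 0 i (by omega)
    rwa [zero_mul, zero_add] at this
  have hf : ∀ i ∈ Finset.range M, ((1 - q ^ (n * 3) * q ^ (4 * i + 2)) *
      (1 - (q ^ (n * 3))⁻¹ * q ^ (4 * i + 2)) /
    ((1 - q ^ (n * 3) * q ^ (4 * i + 4)) * (1 - (q ^ (n * 3))⁻¹ * q ^ (4 * i + 4)))) ∈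
      Loc (Phi n) := by
    intro i hi
    rw [div_eq_mul_inv]
    exact mul_mem (num_mem hn _ _) (den_unit hn 3 _ (hnd i hi)).1
  have hi0 : (n - 1) / 2 ∈ Finset.range M := by
    rw [Finset.mem_range]
    omega
  have e2 : (((4 * ((n - 1) / 2) + 2 : ℕ) : ℤ)) = n * 2 := by
    have : 4 * ((n - 1) / 2) + 2 = n * 2 := by omega
    rw [this]
    push_cast
    ring
  rw [cf, ← Finset.mul_prod_erase _ _ hi0, num_nat, e2, div_eq_mul_inv]
  have e3 : ((n : ℤ) * 2 + ((n * 3 : ℕ) : ℤ)) = n * 5 := by push_cast; ring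
  have e4 : ((n : ℤ) * 2 - ((n * 3 : ℕ) : ℤ)) = n * (-1) := by push_cast; ring
  have e5 : 1 - q ^ (4 * M + 1) = -(del n * br n 3) := by
    have h := br_eq hn (3 : ℤ)
    have e6 : ((n : ℤ) * 3) = ((4 * M + 1 : ℕ) : ℤ) := by rw [hM]; push_cast; ring
    rw [e6, zpow_natCast] at h
    exact h
  rw [e3, e4, br_eq hn 5, br_eq hn (-1), e5]
  obtain ⟨b1, _⟩ := den_unit hn 3 (4 * ((n - 1) / 2) + 4) (hnd _ hi0)
  refine ⟨-br n 3 * (br n 5 * br n (-1) * ((1 - q ^ (n * 3) * q ^ (4 * ((n - 1) / 2) + 4)) *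
    (1 - (q ^ (n * 3))⁻¹ * q ^ (4 * ((n - 1) / 2) + 4)))⁻¹ *
    ∏ i ∈ (Finset.range M).erase ((n - 1) / 2), ((1 - q ^ (n * 3) * q ^ (4 * i + 2)) *
      (1 - (q ^ (n * 3))⁻¹ * q ^ (4 * i + 2)) /
    ((1 - q ^ (n * 3) * q ^ (4 * i + 4)) * (1 - (q ^ (n * 3))⁻¹ * q ^ (4 * i + 4))))),
    mul_mem (neg_mem (br_mem hn _)) (mul_mem (mul_mem (mul_mem (br_mem hn _) (br_mem hn _)) b1)
      (prod_mem fun i hi => hf i (Finset.mem_of_mem_erase hi))), ?_⟩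
  ring

theorem goalB {n : ℕ} (hn3 : n % 4 = 3) :
    ∃ z ∈ Loc (Phi n), ∑ k ∈ Finset.range n, tk q 1 1 k = del n ^ 3 * z := by
  have hn : 0 < n := by omega
  have hn2 : n % 2 = 1 := by omega
  have hn4 : Nat.Coprime n 4 := by
    have : Nat.Coprime n 2 := by
      rw [Nat.coprime_two_right, Nat.odd_iff]
      omega
    have h2 := this.pow_right 2
    norm_num at h2
    exact h2
  obtain ⟨M, hM⟩ : ∃ M, 4 * M + 1 = 3 * n := ⟨(3 * n - 1) / 4, by omega⟩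
  have hv1 : n ∣ 4 * M + 1 := by
    rw [hM]
    exact dvd_mul_left _ _
  have hv2 : n ∣ 4 * ((n - 1) / 2) + 2 := ⟨2, by omega⟩
  have hv3 : n ∣ 4 * ((n - 3) / 4) + 3 := ⟨1, by omega⟩
  have hv4 : n ∣ 4 * (n - 1) + 4 := ⟨4, by omega⟩
  have c1 := fun j hj => cnt_eq hn hn4 hv1 (by omega) 0 j hj
  have c2 := fun j hj => cnt_eq hn hn4 hv2 (by omega) 0 j hj
  have c3 := fun j hj => cnt_eq hn hn4 hv3 (by omega) 0 j hj
  have c4 := fun j hj => cnt_eq hn hn4 hv4 (by omega) 0 j hj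
  simp only [zero_mul, zero_add] at c1 c2 c3 c4
  have s1 := jsum (y := 1) one_ne_zero (fun i => by rw [one_mul]; exact qq_ne _)
      (fun i => qq_ne _) M n (by omega)
  have e3n : q ^ (4 * M + 1) = q ^ (n * 3) := by rw [hM, mul_comm]
  have s2 := jsum (y := q ^ (n * 3)) (pow_ne_zero _ q_ne)
      (fun i => qx_ne (by omega) _)
      (fun i h => by
        have := q_pow_inj (sub_eq_zero.1 h)
        omega) M n (by omega)
  rw [e3n] at s1 s2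
  obtain ⟨z1, hz1, w1⟩ := cf_one_val hn (M := M) (r := 3) hv1 (by
    rw [c2 M (by omega), c4 M (by omega)]
    split_ifs <;> omega)
  obtain ⟨z2, hz2, w2⟩ := cf_val hn3 hM
  have h3 : ∃ z ∈ Loc (Phi n), ∑ k ∈ Finset.range n, (1 - q ^ (8 * k + 1)) * q ^ (4 * k) *
      tj q k * (pj q (q ^ (n * 3)) k - pj q 1 k) ^ 2 = del n ^ 3 * z := by
    have hc : Cg n 3 (∑ k ∈ Finset.range n, (1 - q ^ (8 * k + 1)) * q ^ (4 * k) *
        tj q k * (pj q (q ^ (n * 3)) k - pj q 1 k) ^ 2) (∑ k ∈ Finset.range n, 0) := by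
      refine Cg.sum fun k hk => ?_
      rw [Finset.mem_range] at hk
      obtain ⟨z, hz, e⟩ := pj_cg hn2 3 k hk
      have ht := tj_val hn k (by
        rw [c1 k hk, c2 k hk, c3 k hk, c4 k hk]
        split_ifs <;> omega)
      refine ⟨(1 - q ^ (8 * k + 1)) * q ^ (4 * k) * (del n * tj q k) * z ^ 2, mul_mem (mul_mem
        (mul_mem (sub_mem (one_mem _) (pow_mem (q_mem n) _)) (pow_mem (q_mem n) _)) ht)
        (pow_mem hz 2), ?_⟩
      rw [e]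
      ring
    rw [Finset.sum_const_zero] at hc
    obtain ⟨z, hz, e⟩ := hc
    exact ⟨z, hz, by rw [← e, sub_zero]⟩
  obtain ⟨z3, hz3, w3⟩ := h3
  refine ⟨2 * z1 - z2 + z3, add_mem (sub_mem (mul_mem (by
    have := natCast_mem (Loc (Phi n)) 2
    exact_mod_cast this) hz1) hz2) hz3, ?_⟩
  have key : ∑ k ∈ Finset.range n, tk q 1 1 k =
      2 * ∑ k ∈ Finset.range n, tk q (q ^ (n * 3)) 1 k -
      ∑ k ∈ Finset.range n, tk q (q ^ (n * 3)) (q ^ (n * 3)) k +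
      ∑ k ∈ Finset.range n, (1 - q ^ (8 * k + 1)) * q ^ (4 * k) *
        tj q k * (pj q (q ^ (n * 3)) k - pj q 1 k) ^ 2 := by
    rw [Finset.mul_sum, ← Finset.sum_sub_distrib, ← Finset.sum_add_distrib]
    refine Finset.sum_congr rfl fun k _ => ?_
    rw [tk, tk, tk]
    ring
  rw [key, s1, s2, w1, w2, w3]
  ring

end Pool.Agent.Q281.EK
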