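import Pool.Agent.Q281.EK.Val
import Pool.Agent.Q281.QC.Block

set_option autoImplicit false

/-!
# The dependence on the parameter
-/

namespace Pool.Agent.Q281.EK

open Polynomial Pool.Agent.Q281.QC

/-- The ratio of a factor with parameter `q^N` and the factor with parameter `1`. -/
noncomputable def hh (N e : ℤ) : RatFunc ℚ := (1 - q ^ (e + N)) * (1 - q ^ (e - N)) / (1 - q ^ e) ^ 2

theorem hh_sing {d : ℕ} (hd : 0 < d) (s c : ℤ) : hh ((d : ℤ) * s) ((d : ℤ) * c) =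
    br d (c + s) * br d (c - s) * ((br d c)⁻¹) ^ 2 := by
  have e1 : (d : ℤ) * c + d * s = d * (c + s) := by ring
  have e2 : (d : ℤ) * c - d * s = d * (c - s) := by ring
  rw [hh, e1, e2, br_eq hd, br_eq hd, br_eq hd]
  have h1 := del_ne hd
  have e3 : -(del d * br d (c + s)) * -(del d * br d (c - s)) =
      (br d (c + s) * br d (c - s)) * del d ^ 2 := by ring
  have e4 : (-(del d * br d c)) ^ 2 = (br d c) ^ 2 * del d ^ 2 := by ring
  rw [e3, e4, mul_div_mul_right _ _ (pow_ne_zero 2 h1), inv_pow, div_eq_mul_inv]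

theorem hh_reg {d : ℕ} (hd : 0 < d) (s : ℤ) {e : ℤ} (he : ¬ (d : ℤ) ∣ e) :
    hh ((d : ℤ) * s) e ∈ Loc (Phi d) ∧ (hh ((d : ℤ) * s) e)⁻¹ ∈ Loc (Phi d) ∧
      hh ((d : ℤ) * s) e ≠ 0 ∧ Cg d 2 (hh ((d : ℤ) * s) e) 1 := by
  have hp : ¬ (d : ℤ) ∣ e + d * s := by rwa [dvd_add_left (dvd_mul_right _ _)]
  have hm : ¬ (d : ℤ) ∣ e - d * s := by rwa [dvd_sub_left (dvd_mul_right _ _)]
  have i0 := one_sub_z_inv_mem hd he
  have i1 := one_sub_z_inv_mem hd hp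
  have i2 := one_sub_z_inv_mem hd hm
  have n0 := one_sub_ne_of_nd he
  have n1 := one_sub_ne_of_nd hp
  have n2 := one_sub_ne_of_nd hm
  have hN : q ^ ((d : ℤ) * s) = 1 + del d * br d s := by linear_combination -br_eq hd s
  have hNi : q ^ (-((d : ℤ) * s)) * q ^ ((d : ℤ) * s) = 1 := by
    rw [← zpow_add₀ q_ne, neg_add_cancel, zpow_zero]
  refine ⟨?_, ?_, ?_, ?_⟩
  · rw [hh, div_eq_mul_inv, ← inv_pow]
    exact mul_mem (mul_mem (sub_mem (one_mem _) (qz_mem hd _)) (sub_mem (one_mem _) (qz_mem hd _)))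
      (pow_mem i0 2)
  · rw [hh, inv_div, div_eq_mul_inv, mul_inv]
    exact mul_mem (pow_mem (sub_mem (one_mem _) (qz_mem hd _)) 2) (mul_mem i1 i2)
  · rw [hh]
    exact div_ne_zero (mul_ne_zero n1 n2) (pow_ne_zero 2 n0)
  · refine ⟨-(q ^ e * q ^ (-((d : ℤ) * s)) * br d s ^ 2 * ((1 - q ^ e)⁻¹) ^ 2),
      neg_mem (mul_mem (mul_mem (mul_mem (qz_mem hd _) (qz_mem hd _)) (pow_mem (br_mem hd _) 2))
        (pow_mem i0 2)), ?_⟩
    rw [hh, div_sub_one (pow_ne_zero 2 n0), zpow_add₀ q_ne, sub_eq_add_neg e, zpow_add₀ q_ne,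
      div_eq_mul_inv, inv_pow]
    have key : (1 - q ^ e * q ^ ((d : ℤ) * s)) * (1 - q ^ e * q ^ (-((d : ℤ) * s))) -
        (1 - q ^ e) ^ 2 = del d ^ 2 * -(q ^ e * q ^ (-((d : ℤ) * s)) * br d s ^ 2) := by
      rw [hN] at hNi ⊢
      linear_combination (q ^ e * (q ^ e + del d * br d s - 1)) * hNi
    rw [key]
    ring

/-- The product of the ratios. -/
noncomputable def HH (N : ℤ) (k : ℕ) : RatFunc ℚ := ∏ i ∈ Finset.range k,
  hh N (4 * (i : ℤ) + 1) * (hh N (4 * (i : ℤ) + 4))⁻¹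

theorem hh_mem {d : ℕ} (hd : 0 < d) (s : ℤ) {e : ℤ} (he : e ≠ 0) :
    hh ((d : ℤ) * s) e ∈ Loc (Phi d) := by
  by_cases h : (d : ℤ) ∣ e
  · obtain ⟨c, rfl⟩ := h
    have hc : c ≠ 0 := by
      rintro rfl
      exact he (mul_zero _)
    rw [hh_sing hd]
    exact mul_mem (mul_mem (br_mem hd _) (br_mem hd _)) (pow_mem (br_unit hd hc).1 2)
  · exact (hh_reg hd s h).1

theorem hh_inv {d : ℕ} (hd : 0 < d) (s : ℤ) {e : ℤ} (he : e ≠ 0) (h1 : e ≠ d * s)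
    (h2 : e ≠ -(d * s)) : (hh ((d : ℤ) * s) e)⁻¹ ∈ Loc (Phi d) ∧ hh ((d : ℤ) * s) e ≠ 0 := by
  by_cases h : (d : ℤ) ∣ e
  · obtain ⟨c, rfl⟩ := h
    have hc : c ≠ 0 := by
      rintro rfl
      exact he (mul_zero _)
    have hp : c + s ≠ 0 := by
      intro h0
      apply h2
      have : c = -s := by linarith
      rw [this]
      ring
    have hm : c - s ≠ 0 := by
      intro h0
      apply h1
      have : c = s := by linarith
      rw [this]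
    have u0 := br_unit hd hc
    have u1 := br_unit hd hp
    have u2 := br_unit hd hm
    rw [hh_sing hd]
    constructor
    · rw [mul_inv, mul_inv, inv_pow, inv_inv]
      exact mul_mem (mul_mem u1.1 u2.1) (pow_mem (br_mem hd _) 2)
    · exact mul_ne_zero (mul_ne_zero u1.2 u2.2) (pow_ne_zero 2 (inv_ne_zero u0.2))
  · exact ⟨(hh_reg hd s h).2.1, (hh_reg hd s h).2.2.1⟩

theorem odd_facts {d : ℕ} (hd2 : d % 2 = 1) {s : ℤ} (hs : s % 2 = 1) (i : ℕ) :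
    (4 * (i : ℤ) + 4) ≠ d * s ∧ (4 * (i : ℤ) + 4) ≠ -(d * s) := by
  have h1 : ((d : ℤ) * s) % 2 = 1 := by
    have : (d : ℤ) % 2 = 1 := by omega
    rw [Int.mul_emod, this, hs]
    norm_num
  constructor <;> omega

/-- The factors are regular. -/
theorem fac_mem {d : ℕ} (hd : 0 < d) (hd2 : d % 2 = 1) {s : ℤ} (hs : s % 2 = 1) (i : ℕ) :
    hh ((d : ℤ) * s) (4 * (i : ℤ) + 1) * (hh ((d : ℤ) * s) (4 * (i : ℤ) + 4))⁻¹ ∈ Loc (Phi d) := by
  obtain ⟨h1, h2⟩ := odd_facts hd2 hs i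
  exact mul_mem (hh_mem hd s (by omega)) (hh_inv hd s (by omega) h1 h2).1

theorem HH_mem {d : ℕ} (hd : 0 < d) (hd2 : d % 2 = 1) {s : ℤ} (hs : s % 2 = 1) (k : ℕ) :
    HH ((d : ℤ) * s) k ∈ Loc (Phi d) :=
  prod_mem fun i _ => fac_mem hd hd2 hs i

theorem HH_inv {d : ℕ} (hd : 0 < d) (hd2 : d % 2 = 1) {s : ℤ} (hs : s % 2 = 1) (hs0 : 0 < s)
    (k : ℕ) (hk : ∀ i < k, 4 * (i : ℤ) + 1 ≠ d * s) :
    (HH ((d : ℤ) * s) k)⁻¹ ∈ Loc (Phi d) ∧ HH ((d : ℤ) * s) k ≠ 0 := by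
  have hpos : 0 < (d : ℤ) * s := mul_pos (by omega) hs0
  have key : ∀ i < k, (hh ((d : ℤ) * s) (4 * (i : ℤ) + 1) *
      (hh ((d : ℤ) * s) (4 * (i : ℤ) + 4))⁻¹)⁻¹ ∈ Loc (Phi d) ∧
      hh ((d : ℤ) * s) (4 * (i : ℤ) + 1) * (hh ((d : ℤ) * s) (4 * (i : ℤ) + 4))⁻¹ ≠ 0 := by
    intro i hi
    obtain ⟨h1, h2⟩ := odd_facts hd2 hs i
    have u1 := hh_inv hd s (e := 4 * (i : ℤ) + 1) (by omega) (hk i hi) (by omega)
    have u2 := hh_inv hd s (e := 4 * (i : ℤ) + 4) (by omega) h1 h2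
    rw [mul_inv, inv_inv]
    exact ⟨mul_mem u1.1 (hh_mem hd s (by omega)), mul_ne_zero u1.2 (inv_ne_zero u2.2)⟩
  rw [HH]
  constructor
  · rw [← Finset.prod_inv_distrib]
    exact prod_mem fun i hi => (key i (Finset.mem_range.1 hi)).1
  · exact Finset.prod_ne_zero_iff.2 fun i hi => (key i (Finset.mem_range.1 hi)).2

/-- Inside a block the product does not change modulo `δ^2`. -/
theorem HH_cg {d : ℕ} (hd : 0 < d) (hd2 : d % 2 = 1) {s : ℤ} (hs : s % 2 = 1) (l j : ℕ)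
    (hj : ∀ t < j, ¬ d ∣ 4 * (l * d + t) + 1 ∧ ¬ d ∣ 4 * (l * d + t) + 4) :
    Cg d 2 (HH ((d : ℤ) * s) (l * d + j)) (HH ((d : ℤ) * s) (l * d)) := by
  induction j with
  | zero => exact Cg.refl _
  | succ j ih =>
    have h1 := ih fun t ht => hj t (by omega)
    have h2 := hj j (Nat.lt_succ_self j)
    have e1 : HH ((d : ℤ) * s) (l * d + (j + 1)) = HH ((d : ℤ) * s) (l * d + j) *
      (hh ((d : ℤ) * s) (4 * ((l * d + j : ℕ) : ℤ) + 1) *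
        (hh ((d : ℤ) * s) (4 * ((l * d + j : ℕ) : ℤ) + 4))⁻¹) := Finset.prod_range_succ _ _
    have f1 : ¬ (d : ℤ) ∣ 4 * ((l * d + j : ℕ) : ℤ) + 1 := by
      intro h
      exact h2.1 (by exact_mod_cast h)
    have f2 : ¬ (d : ℤ) ∣ 4 * ((l * d + j : ℕ) : ℤ) + 4 := by
      intro h
      exact h2.2 (by exact_mod_cast h)
    obtain ⟨m1, i1, n1, c1⟩ := hh_reg hd s f1
    obtain ⟨m2, i2, n2, c2⟩ := hh_reg hd s f2
    have c3 : Cg d 2 (hh ((d : ℤ) * s) (4 * ((l * d + j : ℕ) : ℤ) + 4))⁻¹ 1 := by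
      have := Cg.inv i2 (by rw [inv_one]; exact one_mem _) n2 one_ne_zero c2
      rwa [inv_one] at this
    have c4 := Cg.mul i2 (one_mem _) c1 c3
    rw [one_mul] at c4
    rw [e1]
    have c5 := Cg.mul (mul_mem m1 i2) (HH_mem hd hd2 hs (l * d)) h1 c4
    rwa [mul_one] at c5

theorem pj_HH (N k : ℕ) : pj q (q ^ N) k = pj q 1 k * HH (N : ℤ) k := by
  rw [pj, pj, HH, ← Finset.prod_mul_distrib]
  refine Finset.prod_congr rfl fun i _ => ?_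
  have h1 : 1 - q ^ (4 * i + 1) ≠ 0 := qq_ne _
  have h4 : 1 - q ^ (4 * i + 4) ≠ 0 := qq_ne _
  have e1 : ∀ e : ℕ, hh (N : ℤ) (e : ℤ) =
      (1 - q ^ N * q ^ e) * (1 - (q ^ N)⁻¹ * q ^ e) / (1 - q ^ e) ^ 2 := by
    intro e
    rw [hh, sub_eq_add_neg (e : ℤ), zpow_add₀ q_ne, zpow_add₀ q_ne, zpow_neg, zpow_natCast,
      zpow_natCast, mul_comm (q ^ e) (q ^ N), mul_comm (q ^ e) (q ^ N)⁻¹]
  have g1 := e1 (4 * i + 1)
  have g4 := e1 (4 * i + 4)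
  push_cast at g1 g4
  rw [g1, g4, inv_one, one_mul, one_mul, inv_div]
  field_simp

end Pool.Agent.Q281.EK
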