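import Pool.Agent.Q281.EK.Tel
import Pool.Agent.Q281.QC.Sums

set_option autoImplicit false

/-!
# The terminating sum
-/

namespace Pool.Agent.Q281.EK

open Polynomial Pool.Agent.Q281.QC

theorem pj_vanish {M k : ℕ} (h : M < k) : pj q (q ^ (4 * M + 1)) k = 0 := by
  rw [pj]
  refine Finset.prod_eq_zero (Finset.mem_range.2 h) ?_
  rw [inv_mul_cancel₀ (pow_ne_zero _ q_ne)]
  simp

/-- The closed form. -/
noncomputable def cf (M : ℕ) (y : RatFunc ℚ) : RatFunc ℚ := (1 - q ^ (4 * M + 1)) *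
  ∏ i ∈ Finset.range M, ((1 - y * q ^ (4 * i + 2)) * (1 - y⁻¹ * q ^ (4 * i + 2)) /
    ((1 - y * q ^ (4 * i + 4)) * (1 - y⁻¹ * q ^ (4 * i + 4))))

theorem cf_succ (M : ℕ) (y : RatFunc ℚ) :
    cf (M + 1) y = rho q (q ^ (4 * M + 1)) y * cf M y := by
  have h1 : 1 - q ^ (4 * M + 1) ≠ 0 := qq_ne _
  rw [cf, cf, Finset.prod_range_succ, rho]
  have e1 : q ^ (4 * (M + 1) + 1) = q ^ (4 * M + 1) * q ^ 4 := by rw [← pow_add]; congr 1
  have e2 : q ^ (4 * M + 2) = q ^ (4 * M + 1) * q := by rw [← pow_succ]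
  have e3 : q ^ (4 * M + 4) = q ^ (4 * M + 1) * q ^ 3 := by rw [← pow_add]
  rw [e1, e2, e3]
  obtain ⟨x, hx⟩ : ∃ x, q ^ (4 * M + 1) = x := ⟨_, rfl⟩
  rw [hx] at h1
  rw [hx]
  obtain ⟨p, hp⟩ : ∃ p, ∏ i ∈ Finset.range M, ((1 - y * q ^ (4 * i + 2)) *
    (1 - y⁻¹ * q ^ (4 * i + 2)) /
    ((1 - y * q ^ (4 * i + 4)) * (1 - y⁻¹ * q ^ (4 * i + 4)))) = p := ⟨_, rfl⟩
  rw [hp]
  have e4 : 1 - y * (x * q) = 1 - x * q * y := by ring
  have e5 : 1 - y⁻¹ * (x * q) = 1 - x * q * y⁻¹ := by ring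
  have e6 : 1 - y * (x * q ^ 3) = 1 - x * q ^ 3 * y := by ring
  have e7 : 1 - y⁻¹ * (x * q ^ 3) = 1 - x * q ^ 3 * y⁻¹ := by ring
  rw [e4, e5, e6, e7, mul_assoc (1 - x) _ _]
  have h2 : (1 - x) * (1 - x)⁻¹ = 1 := mul_inv_cancel₀ h1
  rw [div_eq_mul_inv, div_eq_mul_inv, mul_inv (1 - x)]
  obtain ⟨D, hD⟩ : ∃ D, ((1 - x * q ^ 3 * y) * (1 - x * q ^ 3 * y⁻¹))⁻¹ = D := ⟨_, rfl⟩
  rw [hD]
  linear_combination (-((1 - x * q ^ 4) * (1 - x * q * y) * (1 - x * q * y⁻¹) * p * D)) * h2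

theorem jsum {y : RatFunc ℚ} (hy0 : y ≠ 0) (hy : ∀ i : ℕ, 1 - y * q ^ (4 * i + 4) ≠ 0)
    (hyi : ∀ i : ℕ, y - q ^ (4 * i + 4) ≠ 0) (M : ℕ) : ∀ K, M + 1 ≤ K →
    ∑ k ∈ Finset.range K, tk q (q ^ (4 * M + 1)) y k = cf M y := by
  induction M with
  | zero =>
    intro K hK
    rw [Finset.sum_eq_single 0]
    · simp [tk, pj, tj, cf]
    · intro k _ hk
      rw [tk, pj_vanish (Nat.pos_of_ne_zero hk), mul_zero, zero_mul]
    · intro h
      exact absurd (Finset.mem_range.2 (by omega)) h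
  | succ M ih =>
    intro K hK
    have h1 := ih K (by omega)
    have e1 : q ^ (4 * (M + 1) + 1) = q ^ (4 * M + 1) * q ^ 4 := by rw [← pow_add]; congr 1
    have hz : pj q (q ^ (4 * M + 1) * q ^ 4) K = 0 := by
      rw [← e1]
      exact pj_vanish (by omega)
    have hsum := Finset.sum_range_sub (fun k => gk q (q ^ (4 * M + 1)) y k) K
    have g0 : gk q (q ^ (4 * M + 1)) y 0 = 0 := by
      rw [gk]
      simp
    have gK : gk q (q ^ (4 * M + 1)) y K = 0 := by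
      rw [gk, hz]
      simp
    rw [g0, gK, sub_zero] at hsum
    have e3 : q ^ (4 * M + 4) = q ^ (4 * M + 1) * q ^ 3 := by rw [← pow_add]
    have h8 : 1 - q ^ (4 * M + 1) * q ^ 3 * y ≠ 0 := by
      have := hy M
      rwa [e3, mul_comm] at this
    have h9 : y - q ^ (4 * M + 1) * q ^ 3 ≠ 0 := by
      have := hyi M
      rwa [e3] at this
    have hxx : ∀ i : ℕ, q ^ (4 * M + 1) - q ^ (4 * i) ≠ 0 := by
      intro i h
      have := q_pow_inj (sub_eq_zero.1 h)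
      omega
    have hsum2 : ∑ k ∈ Finset.range K, (tk q (q ^ (4 * M + 1) * q ^ 4) y k -
        rho q (q ^ (4 * M + 1)) y * tk q (q ^ (4 * M + 1)) y k) = 0 := by
      rw [← hsum]
      exact Finset.sum_congr rfl fun k _ => tele q_ne (pow_ne_zero _ q_ne) hy0
        (fun i => qx_ne (by omega) i) hxx qq_ne hy hyi h8 h9 k
    rw [Finset.sum_sub_distrib, ← Finset.mul_sum, h1, sub_eq_zero] at hsum2
    rw [e1, hsum2, cf_succ]

end Pool.Agent.Q281.EK
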