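import Mathlib

set_option autoImplicit false

/-!
# A telescoping identity for a terminating very-well-poised sum
-/

namespace Pool.Agent.Q281.EK

variable {K : Type} [Field K]

/-- The very-well-poised product. -/
noncomputable def pj (q z : K) (k : ℕ) : K := ∏ i ∈ Finset.range k,
  ((1 - z * q ^ (4 * i + 1)) * (1 - z⁻¹ * q ^ (4 * i + 1)) /
    ((1 - z * q ^ (4 * i + 4)) * (1 - z⁻¹ * q ^ (4 * i + 4))))

/-- The remaining product. -/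
noncomputable def tj (q : K) (k : ℕ) : K := ∏ i ∈ Finset.range k,
  ((1 - q ^ (4 * i + 1)) * (1 - q ^ (4 * i + 2)) / ((1 - q ^ (4 * i + 4)) * (1 - q ^ (4 * i + 3))))

theorem pj_succ (q z : K) (k : ℕ) : pj q z (k + 1) = pj q z k *
    ((1 - z * q ^ (4 * k + 1)) * (1 - z⁻¹ * q ^ (4 * k + 1)) /
      ((1 - z * q ^ (4 * k + 4)) * (1 - z⁻¹ * q ^ (4 * k + 4)))) :=
  Finset.prod_range_succ _ _

theorem tj_succ (q : K) (k : ℕ) : tj q (k + 1) = tj q k *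
    ((1 - q ^ (4 * k + 1)) * (1 - q ^ (4 * k + 2)) /
      ((1 - q ^ (4 * k + 4)) * (1 - q ^ (4 * k + 3)))) :=
  Finset.prod_range_succ _ _

/-- The summand. -/
noncomputable def tk (q x y : K) (k : ℕ) : K :=
  (1 - q ^ (8 * k + 1)) * q ^ (4 * k) * tj q k * pj q x k * pj q y k

/-- The certificate. -/
noncomputable def gk (q x y : K) (k : ℕ) : K :=
  q ^ 3 * x * (1 + x * q ^ 2) / ((x * q ^ 3 - 1) * (1 - x * q ^ 3 * y) * (1 - x * q ^ 3 * y⁻¹)) *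
  ((1 - q ^ (4 * k)) * ((q - q ^ (4 * k)) / q) * (1 - q ^ (4 * k) * y) * (1 - q ^ (4 * k) * y⁻¹) *
    ((1 - x * q ^ 4 * q ^ (4 * k)) / (1 - x * q * q ^ (4 * k)))) *
  (tj q k * pj q (x * q ^ 4) k * pj q y k)

theorem ratio_step {q x w : K} (hq : q ≠ 0) (hx0 : x ≠ 0) (a1 : x - w ≠ 0)
    (a2 : 1 - x * w * q ≠ 0) (a3 : 1 - x * w * q ^ 4 ≠ 0) (a4 : x - w * q ^ 4 ≠ 0)
    (a5 : 1 - x * w * q ^ 5 ≠ 0) (a6 : 1 - x * w * q ^ 8 ≠ 0) (a7 : x * q ^ 3 - 1 ≠ 0)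
    (a8 : 1 - x * q ^ 4 ≠ 0) (p : K) :
    p * ((1 - x * q) * (x - 1) * (x * q ^ 3 - w) * (1 - x * w * q ^ 4) /
      ((1 - x * w * q) * (x * q ^ 3 - 1) * (1 - x * q ^ 4) * (x - w))) *
    ((1 - x * w * q) * ((x - w * q) / x) / ((1 - x * w * q ^ 4) * ((x - w * q ^ 4) / x))) =
    p * ((1 - x * w * q ^ 5) * ((x * q ^ 3 - w) / (x * q ^ 3)) /
      ((1 - x * w * q ^ 8) * ((x - w) / x))) *
    ((1 - x * q) * (x - 1) * (x * q ^ 3 - w * q ^ 4) * (1 - x * w * q ^ 8) /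
      ((1 - x * w * q ^ 5) * (x * q ^ 3 - 1) * (1 - x * q ^ 4) * (x - w * q ^ 4))) := by
  have e : x * q ^ 3 - w * q ^ 4 = q ^ 3 * (x - w * q) := by ring
  rw [e]
  obtain ⟨d1, hd1⟩ : ∃ d, x - w = d := ⟨_, rfl⟩
  obtain ⟨d2, hd2⟩ : ∃ d, 1 - x * w * q = d := ⟨_, rfl⟩
  obtain ⟨d3, hd3⟩ : ∃ d, 1 - x * w * q ^ 4 = d := ⟨_, rfl⟩
  obtain ⟨d4, hd4⟩ : ∃ d, x - w * q ^ 4 = d := ⟨_, rfl⟩
  obtain ⟨d5, hd5⟩ : ∃ d, 1 - x * w * q ^ 5 = d := ⟨_, rfl⟩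
  obtain ⟨d6, hd6⟩ : ∃ d, 1 - x * w * q ^ 8 = d := ⟨_, rfl⟩
  obtain ⟨d7, hd7⟩ : ∃ d, x * q ^ 3 - 1 = d := ⟨_, rfl⟩
  obtain ⟨d8, hd8⟩ : ∃ d, 1 - x * q ^ 4 = d := ⟨_, rfl⟩
  rw [hd1] at a1
  rw [hd2] at a2
  rw [hd3] at a3
  rw [hd4] at a4
  rw [hd5] at a5
  rw [hd6] at a6
  rw [hd7] at a7
  rw [hd8] at a8
  rw [hd1, hd2, hd3, hd4, hd5, hd6, hd7, hd8]
  field_simp

theorem pj_ratio {q x : K} (hq : q ≠ 0) (hx0 : x ≠ 0) (hx : ∀ i : ℕ, 1 - x * q ^ i ≠ 0)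
    (hy : ∀ i : ℕ, x - q ^ (4 * i) ≠ 0) (k : ℕ) :
    pj q x k = pj q (x * q ^ 4) k * ((1 - x * q) * (x - 1) * (x * q ^ 3 - q ^ (4 * k)) *
      (1 - x * q ^ (4 * k) * q ^ 4) /
      ((1 - x * q ^ (4 * k) * q) * (x * q ^ 3 - 1) * (1 - x * q ^ 4) * (x - q ^ (4 * k)))) := by
  have a7 : x * q ^ 3 - 1 ≠ 0 := by
    have := hx 3
    intro h
    exact this (by linear_combination -h)
  have a8 : 1 - x * q ^ 4 ≠ 0 := hx 4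
  induction k with
  | zero =>
    have h1 := hx 1
    have h0 := hy 0
    rw [mul_zero, pow_zero] at h0
    rw [pow_one] at h1
    simp only [pj, Finset.range_zero, Finset.prod_empty, mul_zero, pow_zero, mul_one, one_mul]
    rw [eq_comm, div_eq_one_iff_eq (mul_ne_zero (mul_ne_zero (mul_ne_zero h1 a7) a8) h0)]
    ring
  | succ k ih =>
    rw [pj_succ, pj_succ, ih]
    set w := q ^ (4 * k) with hw
    have e1 : q ^ (4 * k + 1) = w * q := by rw [hw, pow_succ]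
    have e4 : q ^ (4 * k + 4) = w * q ^ 4 := by rw [hw, pow_add]
    have e3 : q ^ (4 * (k + 1)) = w * q ^ 4 := by rw [hw, ← pow_add]; congr 1
    have b1 : x - w ≠ 0 := hy k
    have b4 : x - w * q ^ 4 ≠ 0 := by have := hy (k + 1); rwa [e3] at this
    have hh : ∀ j : ℕ, 1 - x * w * q ^ j ≠ 0 := by
      intro j
      have := hx (4 * k + j)
      rw [pow_add, ← mul_assoc] at this
      exact this
    have h2 : 1 - x * w * q ≠ 0 := by have := hh 1; rwa [pow_one] at this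
    rw [e1, e4, e3]
    have c1 : 1 - x⁻¹ * (w * q) = (x - w * q) / x := by field_simp
    have c2 : 1 - x⁻¹ * (w * q ^ 4) = (x - w * q ^ 4) / x := by field_simp
    have c3 : 1 - (x * q ^ 4)⁻¹ * (w * q) = (x * q ^ 3 - w) / (x * q ^ 3) := by
      field_simp
    have c4 : 1 - (x * q ^ 4)⁻¹ * (w * q ^ 4) = (x - w) / x := by field_simp
    have c5 : 1 - x * (w * q) = 1 - x * w * q := by ring
    have c6 : 1 - x * (w * q ^ 4) = 1 - x * w * q ^ 4 := by ring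
    have c7 : 1 - x * q ^ 4 * (w * q) = 1 - x * w * q ^ 5 := by ring
    have c8 : 1 - x * q ^ 4 * (w * q ^ 4) = 1 - x * w * q ^ 8 := by ring
    have c9 : 1 - x * (w * q ^ 4) * q ^ 4 = 1 - x * w * q ^ 8 := by ring
    have c10 : 1 - x * (w * q ^ 4) * q = 1 - x * w * q ^ 5 := by ring
    rw [c1, c2, c3, c4, c5, c6, c7, c8, c9, c10]
    exact ratio_step hq hx0 b1 h2 (hh 4) b4 (hh 5) (hh 8) a7 a8 _

theorem core {q x y w : K} (hq : q ≠ 0) (hy0 : y ≠ 0) (a1 : x - w ≠ 0) (a2 : 1 - x * w * q ≠ 0)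
    (a7 : x * q ^ 3 - 1 ≠ 0) (a8 : 1 - x * q ^ 3 * y ≠ 0) (a9 : y - x * q ^ 3 ≠ 0) :
    w * (1 - q * w ^ 2) * (1 + (1 - x * q * y) * (y - x * q) * (1 - x * q) * (x * q ^ 3 - w) *
      (1 - x * w * q ^ 4) / ((1 - x * q ^ 3 * y) * (y - x * q ^ 3) * (1 - x * w * q) *
        (x * q ^ 3 - 1) * (x - w))) =
    q ^ 3 * x * (1 + x * q ^ 2) / ((x * q ^ 3 - 1) * (1 - x * q ^ 3 * y) *
      ((y - x * q ^ 3) / y)) *
      ((1 - w * q) * (1 - w * q ^ 2) * (1 - y * w * q) * ((y - w * q) / y) * (x * q ^ 3 - w) /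
        (q ^ 3 * (x - w)) -
      (1 - w) * (q - w) * (1 - w * y) * ((y - w) / y) * (1 - x * w * q ^ 4) /
        (q * (1 - x * w * q))) := by
  obtain ⟨d1, hd1⟩ : ∃ d, x - w = d := ⟨_, rfl⟩
  obtain ⟨d2, hd2⟩ : ∃ d, 1 - x * w * q = d := ⟨_, rfl⟩
  obtain ⟨d7, hd7⟩ : ∃ d, x * q ^ 3 - 1 = d := ⟨_, rfl⟩
  obtain ⟨d8, hd8⟩ : ∃ d, 1 - x * q ^ 3 * y = d := ⟨_, rfl⟩
  obtain ⟨d9, hd9⟩ : ∃ d, y - x * q ^ 3 = d := ⟨_, rfl⟩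
  rw [hd1] at a1
  rw [hd2] at a2
  rw [hd7] at a7
  rw [hd8] at a8
  rw [hd9] at a9
  rw [hd1, hd2, hd7, hd8, hd9]
  field_simp
  subst hd1 hd2 hd7 hd8 hd9
  ring

/-- The ratio of consecutive sums. -/
noncomputable def rho (q x y : K) : K :=
  (1 - x * q ^ 4) * (1 - x * q * y) * (1 - x * q * y⁻¹) /
    ((1 - x) * (1 - x * q ^ 3 * y) * (1 - x * q ^ 3 * y⁻¹))

theorem lhs_eq {q x y w : K} (hy0 : y ≠ 0) (a1 : x - w ≠ 0)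
    (a2 : 1 - x * w * q ≠ 0) (a7 : x * q ^ 3 - 1 ≠ 0) (a8 : 1 - x * q ^ 3 * y ≠ 0)
    (a9 : y - x * q ^ 3 ≠ 0) (a4 : 1 - x * q ^ 4 ≠ 0) (a0 : 1 - x ≠ 0) (t u v : K) :
    (1 - q * w ^ 2) * w * t * u * v - (1 - x * q ^ 4) * (1 - x * q * y) * ((y - x * q) / y) /
    ((1 - x) * (1 - x * q ^ 3 * y) * ((y - x * q ^ 3) / y)) * ((1 - q * w ^ 2) * w * t *
    (u * ((1 - x * q) * (x - 1) * (x * q ^ 3 - w) *
      (1 - x * w * q ^ 4) /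
      ((1 - x * w * q) * (x * q ^ 3 - 1) * (1 - x * q ^ 4) * (x - w)))) * v) =
    t * u * v * (w * (1 - q * w ^ 2) * (1 + (1 - x * q * y) * (y - x * q) * (1 - x * q) *
      (x * q ^ 3 - w) *
      (1 - x * w * q ^ 4) / ((1 - x * q ^ 3 * y) * (y - x * q ^ 3) * (1 - x * w * q) *
        (x * q ^ 3 - 1) * (x - w)))) := by
  have e : x - 1 = -(1 - x) := by ring
  rw [e]
  obtain ⟨d0, hd0⟩ : ∃ d, 1 - x = d := ⟨_, rfl⟩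
  obtain ⟨d1, hd1⟩ : ∃ d, x - w = d := ⟨_, rfl⟩
  obtain ⟨d2, hd2⟩ : ∃ d, 1 - x * w * q = d := ⟨_, rfl⟩
  obtain ⟨d4, hd4⟩ : ∃ d, 1 - x * q ^ 4 = d := ⟨_, rfl⟩
  obtain ⟨d7, hd7⟩ : ∃ d, x * q ^ 3 - 1 = d := ⟨_, rfl⟩
  obtain ⟨d8, hd8⟩ : ∃ d, 1 - x * q ^ 3 * y = d := ⟨_, rfl⟩
  obtain ⟨d9, hd9⟩ : ∃ d, y - x * q ^ 3 = d := ⟨_, rfl⟩
  rw [hd0] at a0
  rw [hd1] at a1
  rw [hd2] at a2
  rw [hd4] at a4
  rw [hd7] at a7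
  rw [hd8] at a8
  rw [hd9] at a9
  rw [hd0, hd1, hd2, hd4, hd7, hd8, hd9]
  field_simp
  ring

theorem rhs_eq {q x y w : K} (hq : q ≠ 0) (hx0 : x ≠ 0) (hy0 : y ≠ 0) (a1 : x - w ≠ 0)
    (a2 : 1 - x * w * q ≠ 0) (a5 : 1 - x * w * q ^ 5 ≠ 0) (a6 : 1 - x * w * q ^ 8 ≠ 0)
    (b3 : 1 - w * q ^ 3 ≠ 0) (b4 : 1 - w * q ^ 4 ≠ 0) (b5 : 1 - y * w * q ^ 4 ≠ 0)
    (b6 : y - w * q ^ 4 ≠ 0) (C t u v : K) :
    C * ((1 - w * q ^ 4) * ((q - w * q ^ 4) / q) * (1 - y * w * q ^ 4) * ((y - w * q ^ 4) / y) *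
      ((1 - x * w * q ^ 8) / (1 - x * w * q ^ 5))) *
      (t * ((1 - w * q) * (1 - w * q ^ 2) / ((1 - w * q ^ 4) * (1 - w * q ^ 3))) *
        (u * ((1 - x * w * q ^ 5) * ((x * q ^ 3 - w) / (x * q ^ 3)) /
      ((1 - x * w * q ^ 8) * ((x - w) / x)))) *
        (v * ((1 - y * w * q) * ((y - w * q) / y) / ((1 - y * w * q ^ 4) *
          ((y - w * q ^ 4) / y))))) -
    C * ((1 - w) * ((q - w) / q) * (1 - w * y) * ((y - w) / y) *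
      ((1 - x * w * q ^ 4) / (1 - x * w * q))) * (t * u * v) =
    t * u * v * (C *
      ((1 - w * q) * (1 - w * q ^ 2) * (1 - y * w * q) * ((y - w * q) / y) * (x * q ^ 3 - w) /
        (q ^ 3 * (x - w)) -
      (1 - w) * (q - w) * (1 - w * y) * ((y - w) / y) * (1 - x * w * q ^ 4) /
        (q * (1 - x * w * q)))) := by
  have e : q - w * q ^ 4 = q * (1 - w * q ^ 3) := by ring
  rw [e]
  obtain ⟨d1, hd1⟩ : ∃ d, x - w = d := ⟨_, rfl⟩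
  obtain ⟨d2, hd2⟩ : ∃ d, 1 - x * w * q = d := ⟨_, rfl⟩
  obtain ⟨d5, hd5⟩ : ∃ d, 1 - x * w * q ^ 5 = d := ⟨_, rfl⟩
  obtain ⟨d6, hd6⟩ : ∃ d, 1 - x * w * q ^ 8 = d := ⟨_, rfl⟩
  obtain ⟨c3, hc3⟩ : ∃ d, 1 - w * q ^ 3 = d := ⟨_, rfl⟩
  obtain ⟨c4, hc4⟩ : ∃ d, 1 - w * q ^ 4 = d := ⟨_, rfl⟩
  obtain ⟨c5, hc5⟩ : ∃ d, 1 - y * w * q ^ 4 = d := ⟨_, rfl⟩
  obtain ⟨c6, hc6⟩ : ∃ d, y - w * q ^ 4 = d := ⟨_, rfl⟩
  rw [hd1] at a1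
  rw [hd2] at a2
  rw [hd5] at a5
  rw [hd6] at a6
  rw [hc3] at b3
  rw [hc4] at b4
  rw [hc5] at b5
  rw [hc6] at b6
  rw [hd1, hd2, hd5, hd6, hc3, hc4, hc5, hc6]
  field_simp

theorem tele {q x y : K} (hq0 : q ≠ 0) (hx0 : x ≠ 0) (hy0 : y ≠ 0)
    (hx : ∀ i : ℕ, 1 - x * q ^ i ≠ 0) (hxx : ∀ i : ℕ, x - q ^ (4 * i) ≠ 0)
    (hq : ∀ i : ℕ, 1 - q ^ (i + 1) ≠ 0) (hy : ∀ i : ℕ, 1 - y * q ^ (4 * i + 4) ≠ 0)
    (hyi : ∀ i : ℕ, y - q ^ (4 * i + 4) ≠ 0) (h8 : 1 - x * q ^ 3 * y ≠ 0)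
    (h9 : y - x * q ^ 3 ≠ 0) (k : ℕ) :
    tk q (x * q ^ 4) y k - rho q x y * tk q x y k = gk q x y (k + 1) - gk q x y k := by
  rw [tk, tk, gk, gk, rho, pj_ratio hq0 hx0 hx hxx k, pj_succ, pj_succ, tj_succ]
  have a7 : x * q ^ 3 - 1 ≠ 0 := by
    have := hx 3
    intro h
    exact this (by linear_combination -h)
  have a8 : 1 - x * q ^ 4 ≠ 0 := hx 4
  have a0 : 1 - x ≠ 0 := by have := hx 0; rwa [pow_zero, mul_one] at this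
  have b1 := hxx k
  have b3 := hq (4 * k + 2)
  have b4 := hq (4 * k + 3)
  have b5 := hy k
  have b6 := hyi k
  have hh : ∀ j : ℕ, 1 - x * q ^ (4 * k) * q ^ j ≠ 0 := by
    intro j
    have := hx (4 * k + j)
    rw [pow_add, ← mul_assoc] at this
    exact this
  have f1 : q ^ (4 * k + 2 + 1) = q ^ (4 * k) * q ^ 3 := by rw [← pow_add]
  have f2 : q ^ (4 * k + 3 + 1) = q ^ (4 * k) * q ^ 4 := by rw [← pow_add]
  have e8 : q ^ (8 * k + 1) = q * (q ^ (4 * k)) ^ 2 := by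
    rw [← pow_mul, mul_comm q, ← pow_succ]
    congr 1
    ring
  have e1 : q ^ (4 * k + 1) = q ^ (4 * k) * q := by rw [pow_succ]
  have e2 : q ^ (4 * k + 2) = q ^ (4 * k) * q ^ 2 := by rw [pow_add]
  have e3 : q ^ (4 * k + 3) = q ^ (4 * k) * q ^ 3 := by rw [pow_add]
  have e4 : q ^ (4 * k + 4) = q ^ (4 * k) * q ^ 4 := by rw [pow_add]
  have e5 : q ^ (4 * (k + 1)) = q ^ (4 * k) * q ^ 4 := by rw [← pow_add]; congr 1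
  rw [f1] at b3
  rw [f2] at b4
  rw [e4] at b5 b6
  rw [e8, e1, e2, e3, e4, e5]
  obtain ⟨w, hw⟩ : ∃ w, q ^ (4 * k) = w := ⟨_, rfl⟩
  rw [hw] at b1 b3 b4 b5 b6 hh
  rw [hw]
  have h2 : 1 - x * w * q ≠ 0 := by have := hh 1; rwa [pow_one] at this
  have c1 : 1 - (x * q ^ 4)⁻¹ * (w * q) = (x * q ^ 3 - w) / (x * q ^ 3) := by
    field_simp
  have c2 : 1 - (x * q ^ 4)⁻¹ * (w * q ^ 4) = (x - w) / x := by field_simp
  have c3 : 1 - x * q ^ 4 * (w * q) = 1 - x * w * q ^ 5 := by ring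
  have c4 : 1 - x * q ^ 4 * (w * q ^ 4) = 1 - x * w * q ^ 8 := by ring
  have c5 : 1 - x * q * (w * q ^ 4) = 1 - x * w * q ^ 5 := by ring
  have c6 : 1 - y * (w * q) = 1 - y * w * q := by ring
  have c7 : 1 - y⁻¹ * (w * q) = (y - w * q) / y := by field_simp
  have c8 : 1 - y * (w * q ^ 4) = 1 - y * w * q ^ 4 := by ring
  have c9 : 1 - y⁻¹ * (w * q ^ 4) = (y - w * q ^ 4) / y := by field_simp
  have c10 : 1 - w * q ^ 4 * y = 1 - y * w * q ^ 4 := by ring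
  have c11 : 1 - w * q ^ 4 * y⁻¹ = (y - w * q ^ 4) / y := by field_simp
  have c12 : 1 - w * y⁻¹ = (y - w) / y := by field_simp
  have c13 : 1 - x * q ^ 4 * w = 1 - x * w * q ^ 4 := by ring
  have c14 : 1 - x * q * w = 1 - x * w * q := by ring
  have c15 : 1 - x * q * y⁻¹ = (y - x * q) / y := by field_simp
  have c16 : 1 - x * q ^ 3 * y⁻¹ = (y - x * q ^ 3) / y := by field_simp
  rw [c1, c2, c3, c4, c5, c6, c7, c8, c9, c10, c11, c12, c13, c14, c15, c16]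
  have b5' : 1 - y * w * q ^ 4 ≠ 0 := by rwa [c8] at b5
  rw [lhs_eq hy0 b1 h2 a7 h8 h9 a8 a0, rhs_eq hq0 hx0 hy0 b1 h2 (hh 5) (hh 8) b3 b4 b5' b6,
    core hq0 hy0 b1 h2 a7 h8 h9]

end Pool.Agent.Q281.EK
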