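import Pool.Agent.Q281.EK.HH
import Pool.Agent.Q281.QC.Engine2

set_option autoImplicit false

/-!
# The terms of the sum and the block argument
-/

namespace Pool.Agent.Q281.EK

open Polynomial Pool.Agent.Q281.QC

theorem Pa_ne {a : ℕ} (ha : 0 < a) (k : ℕ) : Pa a k ≠ 0 :=
  Finset.prod_ne_zero_iff.2 fun i _ h => q_pow_ne_one (show 0 < 4 * i + a by omega)
    (sub_eq_zero.1 h).symm

theorem tj_eq (k : ℕ) : tj q k = Pa 1 k * Pa 2 k / (Pa 4 k * Pa 3 k) := by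
  rw [tj, Pa, Pa, Pa, Pa, ← Finset.prod_mul_distrib, ← Finset.prod_mul_distrib,
    ← Finset.prod_div_distrib]

theorem pj1_eq (k : ℕ) : pj q 1 k = Pa 1 k ^ 2 / Pa 4 k ^ 2 := by
  rw [pj, Pa, Pa, ← Finset.prod_pow, ← Finset.prod_pow, ← Finset.prod_div_distrib]
  refine Finset.prod_congr rfl fun i _ => ?_
  rw [inv_one, one_mul, one_mul, sq, sq]

theorem T0_eq (k : ℕ) : tk q 1 1 k =
    (1 - q ^ (8 * k + 1)) * q ^ (4 * k) * (Pa 1 k ^ 5 * Pa 2 k / (Pa 4 k ^ 5 * Pa 3 k)) := by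
  have h4 := Pa_ne (a := 4) (by norm_num) k
  have h3 := Pa_ne (a := 3) (by norm_num) k
  rw [tk, tj_eq, pj1_eq]
  field_simp

theorem T0_val {d : ℕ} (hd : 0 < d) (k r : ℕ)
    (h : 5 * cnt d 4 k + cnt d 3 k + r ≤ 5 * cnt d 1 k + cnt d 2 k + 1) :
    ∃ z ∈ Loc (Phi d), del d * tk q 1 1 k = del d ^ r * z := by
  obtain ⟨m, hm⟩ := Nat.exists_eq_add_of_le h
  have hδ := del_ne hd
  refine ⟨(1 - q ^ (8 * k + 1)) * q ^ (4 * k) * del d ^ m * (Ua d 1 k ^ 5 * Ua d 2 k) *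
    (((Ua d 4 k)⁻¹) ^ 5 * (Ua d 3 k)⁻¹), ?_, ?_⟩
  · exact mul_mem (mul_mem (mul_mem (mul_mem (sub_mem (one_mem _) (pow_mem (q_mem d) _))
      (pow_mem (q_mem d) _)) (pow_mem del_mem _)) (mul_mem (pow_mem (Ua_mem hd _ _) _)
      (Ua_mem hd _ _))) (mul_mem (pow_mem (Ua_inv hd (by norm_num) _).1 _)
      (Ua_inv hd (by norm_num) _).1)
  · have n4 := (Ua_inv hd (a := 4) (by norm_num) k).2
    have n3 := (Ua_inv hd (a := 3) (by norm_num) k).2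
    rw [T0_eq, Pa_eq hd 1, Pa_eq hd 2, Pa_eq hd 3, Pa_eq hd 4]
    have e1 : del d * (del d ^ cnt d 1 k) ^ 5 * del d ^ cnt d 2 k =
        (del d ^ cnt d 4 k) ^ 5 * del d ^ cnt d 3 k * del d ^ r * del d ^ m := by
      rw [← pow_mul, ← pow_mul, ← pow_add, ← pow_add, ← pow_add, ← pow_succ', ← pow_add]
      congr 1
      omega
    have m4 : (del d ^ cnt d 4 k) ≠ 0 := pow_ne_zero _ hδ
    have m3 : (del d ^ cnt d 3 k) ≠ 0 := pow_ne_zero _ hδ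
    have e2 : del d * ((1 - q ^ (8 * k + 1)) * q ^ (4 * k) * ((del d ^ cnt d 1 k * Ua d 1 k) ^ 5 *
        (del d ^ cnt d 2 k * Ua d 2 k) / ((del d ^ cnt d 4 k * Ua d 4 k) ^ 5 *
        (del d ^ cnt d 3 k * Ua d 3 k)))) =
        (1 - q ^ (8 * k + 1)) * q ^ (4 * k) * ((del d * (del d ^ cnt d 1 k) ^ 5 *
        del d ^ cnt d 2 k) * (Ua d 1 k ^ 5 * Ua d 2 k)) /
        ((del d ^ cnt d 4 k * Ua d 4 k) ^ 5 * (del d ^ cnt d 3 k * Ua d 3 k)) := by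
      ring
    rw [e2, e1, div_eq_iff (mul_ne_zero (pow_ne_zero 5 (mul_ne_zero m4 n4)) (mul_ne_zero m3 n3))]
    have i4 : (Ua d 4 k)⁻¹ * Ua d 4 k = 1 := inv_mul_cancel₀ n4
    have i3 : (Ua d 3 k)⁻¹ * Ua d 3 k = 1 := inv_mul_cancel₀ n3
    have e3 : ∀ A B : RatFunc ℚ, del d ^ r * (A * (((Ua d 4 k)⁻¹) ^ 5 * (Ua d 3 k)⁻¹)) *
        ((del d ^ cnt d 4 k * Ua d 4 k) ^ 5 * (del d ^ cnt d 3 k * Ua d 3 k)) =
        del d ^ r * A * (del d ^ cnt d 4 k) ^ 5 * del d ^ cnt d 3 k *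
        ((Ua d 4 k)⁻¹ * Ua d 4 k) ^ 5 * ((Ua d 3 k)⁻¹ * Ua d 3 k) := by
      intro A B
      ring
    rw [e3 _ 0, i4, i3]
    ring

theorem tj_val {d : ℕ} (hd : 0 < d) (k : ℕ)
    (h : cnt d 4 k + cnt d 3 k ≤ cnt d 1 k + cnt d 2 k + 1) :
    del d * tj q k ∈ Loc (Phi d) := by
  obtain ⟨m, hm⟩ := Nat.exists_eq_add_of_le h
  have hδ := del_ne hd
  have n4 := (Ua_inv hd (a := 4) (by norm_num) k).2
  have n3 := (Ua_inv hd (a := 3) (by norm_num) k).2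
  have m4 : (del d ^ cnt d 4 k) ≠ 0 := pow_ne_zero _ hδ
  have m3 : (del d ^ cnt d 3 k) ≠ 0 := pow_ne_zero _ hδ
  have e0 : del d * tj q k = del d ^ m * (Ua d 1 k * Ua d 2 k) *
      ((Ua d 4 k)⁻¹ * (Ua d 3 k)⁻¹) := by
    rw [tj_eq, Pa_eq hd 1, Pa_eq hd 2, Pa_eq hd 3, Pa_eq hd 4]
    have e1 : del d * del d ^ cnt d 1 k * del d ^ cnt d 2 k =
        del d ^ cnt d 4 k * del d ^ cnt d 3 k * del d ^ m := by
      rw [← pow_add, ← pow_add, ← pow_succ', ← pow_add]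
      congr 1
      omega
    have e2 : del d * ((del d ^ cnt d 1 k * Ua d 1 k) * (del d ^ cnt d 2 k * Ua d 2 k) /
        ((del d ^ cnt d 4 k * Ua d 4 k) * (del d ^ cnt d 3 k * Ua d 3 k))) =
        ((del d * del d ^ cnt d 1 k * del d ^ cnt d 2 k) * (Ua d 1 k * Ua d 2 k)) /
        ((del d ^ cnt d 4 k * Ua d 4 k) * (del d ^ cnt d 3 k * Ua d 3 k)) := by
      ring
    rw [e2, e1]
    field_simp
  rw [e0]
  exact mul_mem (mul_mem (pow_mem del_mem _) (mul_mem (Ua_mem hd _ _) (Ua_mem hd _ _)))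
    (mul_mem (Ua_inv hd (by norm_num) _).1 (Ua_inv hd (by norm_num) _).1)

/-- The closed form for `y = 1`. -/
theorem cf_one (M : ℕ) : cf M 1 = (1 - q ^ (4 * M + 1)) * (Pa 2 M ^ 2 / Pa 4 M ^ 2) := by
  rw [cf, Pa, Pa, ← Finset.prod_pow, ← Finset.prod_pow, ← Finset.prod_div_distrib]
  congr 1
  refine Finset.prod_congr rfl fun i _ => ?_
  rw [inv_one, one_mul, one_mul, sq, sq]

theorem cf_one_val {d : ℕ} (hd : 0 < d) {M r : ℕ} (hM : d ∣ 4 * M + 1)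
    (h : 2 * cnt d 4 M + r ≤ 2 * cnt d 2 M + 1) :
    ∃ z ∈ Loc (Phi d), cf M 1 = del d ^ r * z := by
  obtain ⟨m, hm⟩ := Nat.exists_eq_add_of_le h
  have hδ := del_ne hd
  have n4 := (Ua_inv hd (a := 4) (by norm_num) M).2
  have m4 : (del d ^ cnt d 4 M) ≠ 0 := pow_ne_zero _ hδ
  refine ⟨vu d (4 * M + 1) * del d ^ m * (Ua d 2 M) ^ 2 * ((Ua d 4 M)⁻¹) ^ 2, ?_, ?_⟩
  · exact mul_mem (mul_mem (mul_mem (vu_mem hd _) (pow_mem del_mem _))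
      (pow_mem (Ua_mem hd _ _) _)) (pow_mem (Ua_inv hd (by norm_num) _).1 _)
  · rw [cf_one, Pa_eq hd 2, Pa_eq hd 4, vu_eq hd (4 * M + 1), if_pos hM, pow_one]
    have e1 : del d * (del d ^ cnt d 2 M) ^ 2 = (del d ^ cnt d 4 M) ^ 2 * del d ^ r * del d ^ m := by
      rw [← pow_mul, ← pow_mul, ← pow_add, ← pow_add, ← pow_succ']
      congr 1
      omega
    have e2 : del d * vu d (4 * M + 1) * ((del d ^ cnt d 2 M * Ua d 2 M) ^ 2 /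
        (del d ^ cnt d 4 M * Ua d 4 M) ^ 2) =
        (del d * (del d ^ cnt d 2 M) ^ 2) * vu d (4 * M + 1) * Ua d 2 M ^ 2 /
        (del d ^ cnt d 4 M * Ua d 4 M) ^ 2 := by ring
    rw [e2, e1]
    field_simp

end Pool.Agent.Q281.EK
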