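import Pool.Agent.Q281.EK.Jack

set_option autoImplicit false

/-!
# Valuations of the terms
-/

namespace Pool.Agent.Q281.EK

open Polynomial Pool.Agent.Q281.QC

/-- The unit part of `1 - q^e`. -/
noncomputable def vu (d e : ℕ) : RatFunc ℚ := if d ∣ e then -br d ((e / d : ℕ) : ℤ) else 1 - q ^ e

theorem vu_eq {d : ℕ} (hd : 0 < d) (e : ℕ) :
    1 - q ^ e = del d ^ (if d ∣ e then 1 else 0) * vu d e := by
  rw [vu]
  split_ifs with h
  · obtain ⟨c, rfl⟩ := h
    rw [Nat.mul_div_cancel_left c hd, pow_one, mul_neg]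
    have h1 := br_eq hd (c : ℤ)
    have e1 : q ^ ((d : ℤ) * (c : ℤ)) = q ^ (d * c) := by
      rw [← Nat.cast_mul, zpow_natCast]
    rw [e1] at h1
    exact h1
  · rw [pow_zero, one_mul]

theorem vu_mem {d : ℕ} (hd : 0 < d) (e : ℕ) : vu d e ∈ Loc (Phi d) := by
  rw [vu]
  split_ifs with h
  · exact neg_mem (br_mem hd _)
  · exact sub_mem (one_mem _) (pow_mem (q_mem d) _)

theorem vu_inv {d : ℕ} (hd : 0 < d) {e : ℕ} (he : 0 < e) :
    (vu d e)⁻¹ ∈ Loc (Phi d) ∧ vu d e ≠ 0 := by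
  rw [vu]
  split_ifs with h
  · obtain ⟨c, rfl⟩ := h
    have hc : 0 < c := by
      rcases Nat.eq_zero_or_pos c with h0 | h0
      · rw [h0, mul_zero] at he
        exact absurd he (lt_irrefl 0)
      · exact h0
    rw [Nat.mul_div_cancel_left c hd]
    have h1 := br_unit hd (a := (c : ℤ)) (by omega)
    rw [inv_neg]
    exact ⟨neg_mem h1.1, neg_ne_zero.2 h1.2⟩
  · exact ⟨one_sub_inv_mem hd h, fun h0 => q_pow_ne_one he (sub_eq_zero.1 h0).symm⟩

/-- `∏ (1 - q^(4i+a))`. -/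
noncomputable def Pa (a k : ℕ) : RatFunc ℚ := ∏ i ∈ Finset.range k, (1 - q ^ (4 * i + a))

/-- The number of multiples of `d`. -/
def cnt (d a k : ℕ) : ℕ := Nat.count (fun i => d ∣ 4 * i + a) k

/-- The unit part of the product. -/
noncomputable def Ua (d a k : ℕ) : RatFunc ℚ := ∏ i ∈ Finset.range k, vu d (4 * i + a)

theorem Pa_eq {d : ℕ} (hd : 0 < d) (a k : ℕ) : Pa a k = del d ^ cnt d a k * Ua d a k := by
  induction k with
  | zero => simp [Pa, cnt, Ua]
  | succ k ih =>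
    have h1 : Pa a (k + 1) = Pa a k * (1 - q ^ (4 * k + a)) := Finset.prod_range_succ _ _
    have h2 : Ua d a (k + 1) = Ua d a k * vu d (4 * k + a) := Finset.prod_range_succ _ _
    have h3 : cnt d a (k + 1) = cnt d a k + if d ∣ 4 * k + a then 1 else 0 := Nat.count_succ _ _
    rw [h1, h2, h3, ih, vu_eq hd (4 * k + a), pow_add]
    ring

theorem Ua_mem {d : ℕ} (hd : 0 < d) (a k : ℕ) : Ua d a k ∈ Loc (Phi d) :=
  prod_mem fun _ _ => vu_mem hd _

theorem Ua_inv {d : ℕ} (hd : 0 < d) {a : ℕ} (ha : 0 < a) (k : ℕ) :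
    (Ua d a k)⁻¹ ∈ Loc (Phi d) ∧ Ua d a k ≠ 0 := by
  rw [Ua]
  constructor
  · rw [← Finset.prod_inv_distrib]
    exact prod_mem fun i _ => (vu_inv hd (by omega)).1
  · exact Finset.prod_ne_zero_iff.2 fun i _ => (vu_inv hd (by omega)).2

theorem dvd_iff_mod {d a v : ℕ} (hd4 : Nat.Coprime d 4) (hv : d ∣ 4 * v + a) (i : ℕ) :
    d ∣ 4 * i + a ↔ i ≡ v [MOD d] := by
  have h1 : d ∣ 4 * i + a ↔ 4 * i + a ≡ 4 * v + a [MOD d] := by
    constructor
    · intro h
      exact ((Nat.modEq_zero_iff_dvd).2 h).trans ((Nat.modEq_zero_iff_dvd).2 hv).symm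
    · intro h
      exact (Nat.modEq_zero_iff_dvd).1 (h.trans ((Nat.modEq_zero_iff_dvd).2 hv))
  rw [h1]
  constructor
  · intro h
    exact Nat.ModEq.cancel_left_of_coprime hd4 (Nat.ModEq.add_right_cancel' a h)
  · intro h
    exact (h.mul_left 4).add_right a

theorem cnt_eq {d a v : ℕ} (hd : 0 < d) (hd4 : Nat.Coprime d 4) (hv : d ∣ 4 * v + a) (hvd : v < d)
    (l j : ℕ) (hj : j < d) : cnt d a (l * d + j) = l + if v < j then 1 else 0 := by
  have h1 : cnt d a (l * d + j) = Nat.count (fun i => i ≡ v [MOD d]) (l * d + j) := by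
    rw [cnt]
    congr 1
    ext i
    exact dvd_iff_mod hd4 hv i
  rw [h1, Nat.count_modEq_card _ hd v]
  have h2 : (l * d + j) / d = l := by
    rw [mul_comm, Nat.mul_add_div hd, Nat.div_eq_of_lt hj, add_zero]
  have h3 : (l * d + j) % d = j := by
    rw [mul_comm, Nat.mul_add_mod, Nat.mod_eq_of_lt hj]
  rw [h2, h3, Nat.mod_eq_of_lt hvd]

end Pool.Agent.Q281.EK
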